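import Pool.Agent.H.MP_d87fde_al.F

namespace Pool.Agent.Results.MP_d87fde_al.No
open Pool.Agent.H.MP_d87fde_al Pool.Agent.H.MP_d87fde_al.Defs
open scoped TensorProduct

theorem result : ∃ (ι O : Type) (_ : Fintype ι) (_ : DecidableEq ι) (_ : Ring O)
    (_ : Algebra ℂ O) (_ : StarRing O) (_ : StarModule ℂ O) (u : Matrix ι ι O)
    (Δ : O →⋆ₐ[ℂ] O ⊗[ℂ] O) (h : O →ₗ[ℂ] ℂ),
    IsCMQG u Δ ∧ IsHaar Δ h ∧ (∀ a, h (star a * a) = 0 → a = 0) ∧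
    ¬ Coamenable h ∧ AllTori u AmenableGen :=
  ⟨I, O, _, _, _, _, _, _, u, D, hh, cmqg, haar, faith, not_coam, tori'⟩

end Pool.Agent.Results.MP_d87fde_al.No
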